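import Pool.Agent.H922R2.L12

/-!
# Trapezoidal pairs that are finite outside a curve with infinitely many symmetries

A polynomial whose Newton polygon is a trapezoid is never a component of an automorphism of the
plane. Together with the theorem that a plane Keller map is an automorphism as soon as it is finite
outside a curve that is carried to itself by an automorphism of infinite order of the plane, this
gives a case of the problem.
-/

set_option autoImplicit false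

namespace Pool.Agent.Results.MP_2d59ee_ag.SymmetricCurveTrapezoid

open MvPolynomial Pool.Agent.H922R2

/-- Let `T` be the convex hull of the support of `F` and the origin. If `(s, t)` is an extreme point
of `T` other than the origin, then `F` has a monomial with exponent `(s, t)`. -/
theorem mem_of_extreme {F : MvPolynomial (Fin 2) ℂ} {T : Set (ℝ × ℝ)} {s t : ℕ}
    (h : convexHull ℝ (insert ((0:ℝ), (0:ℝ))
      ((fun d : Fin 2 →₀ ℕ => ((d 0 : ℝ), (d 1 : ℝ))) '' (↑F.support : Set (Fin 2 →₀ ℕ)))) = T)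
    (hs : 0 < s) (hx : ((s : ℝ), (t : ℝ)) ∈ T.extremePoints ℝ) :
    ∃ d : Fin 2 →₀ ℕ, coeff d F ≠ 0 ∧ d 0 = s ∧ d 1 = t := by
  rw [← h] at hx
  have h1 := extremePoints_convexHull_subset hx
  rcases h1 with h1 | ⟨d, hd, h1⟩
  · exfalso
    have := congrArg Prod.fst h1
    simp only [Nat.cast_eq_zero] at this
    omega
  · refine ⟨d, mem_support_iff.1 hd, ?_, ?_⟩
    · have := congrArg Prod.fst h1
      simpa using this
    · have := congrArg Prod.snd h1
      simpa using this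

/-- A polynomial whose Newton polygon is a trapezoid does not have a locally nilpotent Jacobian
derivation. -/
theorem not_LN {F : MvPolynomial (Fin 2) ℂ} {m n : ℕ} (hm : 0 < m) (hn : 0 < n)
    (h : convexHull ℝ (insert ((0:ℝ), (0:ℝ))
      ((fun d : Fin 2 →₀ ℕ => ((d 0 : ℝ), (d 1 : ℝ))) '' (↑F.support : Set (Fin 2 →₀ ℕ))))
      = {p : ℝ × ℝ | 0 ≤ p.2 ∧ p.2 ≤ (n : ℝ) ∧ 0 ≤ p.1 ∧ p.1 ≤ (m : ℝ) + (n : ℝ) - p.2}) :
    ¬ LN (DJ F) := by
  intro hLN
  have h1 : ∀ d, coeff d F ≠ 0 → d 1 ≤ n ∧ d 0 + d 1 ≤ m + n := by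
    intro d hd
    have h2 : ((d 0 : ℝ), (d 1 : ℝ)) ∈ convexHull ℝ (insert ((0:ℝ), (0:ℝ))
      ((fun d : Fin 2 →₀ ℕ => ((d 0 : ℝ), (d 1 : ℝ))) '' (↑F.support : Set (Fin 2 →₀ ℕ)))) :=
      subset_convexHull ℝ _ (Set.mem_insert_of_mem _ ⟨d, mem_support_iff.2 hd, rfl⟩)
    rw [h] at h2
    obtain ⟨_, h3, _, h4⟩ := h2
    simp only at h3 h4
    constructor
    · exact_mod_cast h3
    · have : (d 0 : ℝ) + d 1 ≤ m + n := by linarith
      exact_mod_cast this
  -- the corner `(m + n, 0)`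
  have hc1 : (((m + n : ℕ) : ℝ), ((0 : ℕ) : ℝ)) ∈ Set.extremePoints ℝ
      {p : ℝ × ℝ | 0 ≤ p.2 ∧ p.2 ≤ (n : ℝ) ∧ 0 ≤ p.1 ∧ p.1 ≤ (m : ℝ) + (n : ℝ) - p.2} := by
    rw [mem_extremePoints]
    refine ⟨⟨by simp, by simp, by positivity, by push_cast; linarith⟩, ?_⟩
    rintro ⟨x1, y1⟩ ⟨ha1, ha2, ha3, ha4⟩ ⟨x2, y2⟩ ⟨hb1, hb2, hb3, hb4⟩ ⟨s, t, hs, ht, hst, he⟩
    simp only [Prod.smul_mk, smul_eq_mul, Prod.mk_add_mk, Prod.mk.injEq, Nat.cast_zero,
      Nat.cast_add] at he ha1 ha2 ha3 ha4 hb1 hb2 hb3 hb4 ⊢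
    obtain ⟨e1, e2⟩ := he
    have hy1 : y1 = 0 := by
      have g1 : 0 ≤ s * y1 := mul_nonneg hs.le ha1
      have g2 : 0 ≤ t * y2 := mul_nonneg ht.le hb1
      have g3 : s * y1 = 0 := by linarith
      rcases mul_eq_zero.1 g3 with g | g
      · linarith
      · exact g
    have hy2 : y2 = 0 := by
      have g1 : 0 ≤ s * y1 := mul_nonneg hs.le ha1
      have g2 : 0 ≤ t * y2 := mul_nonneg ht.le hb1
      have g3 : t * y2 = 0 := by linarith
      rcases mul_eq_zero.1 g3 with g | g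
      · linarith
      · exact g
    subst hy1
    subst hy2
    have g1 : s * (((m : ℝ) + n) - x1) + t * (((m : ℝ) + n) - x2) = 0 := by
      have : s * (((m : ℝ) + n) - x1) + t * (((m : ℝ) + n) - x2) =
        (s + t) * ((m : ℝ) + n) - (s * x1 + t * x2) := by ring
      rw [this, hst, e1]; ring
    have g2 : 0 ≤ s * (((m : ℝ) + n) - x1) := mul_nonneg hs.le (by linarith)
    have g3 : 0 ≤ t * (((m : ℝ) + n) - x2) := mul_nonneg ht.le (by linarith)
    have g4 : s * (((m : ℝ) + n) - x1) = 0 := by linarith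
    have g5 : t * (((m : ℝ) + n) - x2) = 0 := by linarith
    refine ⟨⟨?_, rfl⟩, ⟨?_, rfl⟩⟩
    · rcases mul_eq_zero.1 g4 with g | g <;> linarith
    · rcases mul_eq_zero.1 g5 with g | g <;> linarith
  -- the corner `(m, n)`
  have hc2 : ((m : ℝ), (n : ℝ)) ∈ Set.extremePoints ℝ
      {p : ℝ × ℝ | 0 ≤ p.2 ∧ p.2 ≤ (n : ℝ) ∧ 0 ≤ p.1 ∧ p.1 ≤ (m : ℝ) + (n : ℝ) - p.2} := by
    rw [mem_extremePoints]
    refine ⟨⟨by positivity, le_rfl, by positivity, by simp⟩, ?_⟩
    rintro ⟨x1, y1⟩ ⟨ha1, ha2, ha3, ha4⟩ ⟨x2, y2⟩ ⟨hb1, hb2, hb3, hb4⟩ ⟨s, t, hs, ht, hst, he⟩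
    simp only [Prod.smul_mk, smul_eq_mul, Prod.mk_add_mk, Prod.mk.injEq] at he ha1 ha2 ha3 ha4 hb1 hb2 hb3 hb4 ⊢
    obtain ⟨e1, e2⟩ := he
    have g1 : s * ((n : ℝ) - y1) + t * ((n : ℝ) - y2) = 0 := by
      have : s * ((n : ℝ) - y1) + t * ((n : ℝ) - y2) =
        (s + t) * (n : ℝ) - (s * y1 + t * y2) := by ring
      rw [this, hst, e2]; ring
    have g2 : 0 ≤ s * ((n : ℝ) - y1) := mul_nonneg hs.le (by linarith)
    have g3 : 0 ≤ t * ((n : ℝ) - y2) := mul_nonneg ht.le (by linarith)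
    have g4 : s * ((n : ℝ) - y1) = 0 := by linarith
    have g5 : t * ((n : ℝ) - y2) = 0 := by linarith
    have hy1 : y1 = n := by rcases mul_eq_zero.1 g4 with g | g <;> linarith
    have hy2 : y2 = n := by rcases mul_eq_zero.1 g5 with g | g <;> linarith
    have k1 : s * ((m : ℝ) - x1) + t * ((m : ℝ) - x2) = 0 := by
      have : s * ((m : ℝ) - x1) + t * ((m : ℝ) - x2) =
        (s + t) * (m : ℝ) - (s * x1 + t * x2) := by ring
      rw [this, hst, e1]; ring
    have k2 : 0 ≤ s * ((m : ℝ) - x1) := mul_nonneg hs.le (by linarith)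
    have k3 : 0 ≤ t * ((m : ℝ) - x2) := mul_nonneg ht.le (by linarith)
    have k4 : s * ((m : ℝ) - x1) = 0 := by linarith
    have k5 : t * ((m : ℝ) - x2) = 0 := by linarith
    refine ⟨⟨?_, hy1⟩, ⟨?_, hy2⟩⟩
    · rcases mul_eq_zero.1 k4 with g | g <;> linarith
    · rcases mul_eq_zero.1 k5 with g | g <;> linarith
  obtain ⟨d1, hd1, hd10, hd11⟩ := mem_of_extreme h (by omega) hc1
  obtain ⟨d2, hd2, hd20, hd21⟩ := mem_of_extreme h hm hc2
  have e0 : degreeOf 0 F = m + n := by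
    apply le_antisymm
    · rw [degreeOf_le_iff]
      intro t ht
      have := (h1 t (mem_support_iff.1 ht)).2
      omega
    · rw [← hd10]; exact le_degreeOf 0 hd1
  have e1 : degreeOf 1 F = n := by
    apply le_antisymm
    · rw [degreeOf_le_iff]
      intro t ht
      exact (h1 t (mem_support_iff.1 ht)).1
    · rw [← hd21]; exact le_degreeOf 1 hd2
  set g := Nat.gcd (m + n) n with hg
  have hgpos : 0 < g := Nat.gcd_pos_of_pos_left _ (by omega)
  obtain ⟨m', hm'⟩ : g ∣ m + n := Nat.gcd_dvd_left _ n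
  obtain ⟨n', hn'⟩ : g ∣ n := Nat.gcd_dvd_right _ n
  have hm'pos : 0 < m' := Nat.pos_of_ne_zero (by rintro rfl; omega)
  have hn'pos : 0 < n' := Nat.pos_of_ne_zero (by rintro rfl; omega)
  have hco : Nat.Coprime m' n' := by
    have h := Nat.coprime_div_gcd_div_gcd (m := m + n) (n := n) hgpos
    rw [← hg] at h
    rwa [Nat.div_eq_of_eq_mul_right hgpos hm', Nat.div_eq_of_eq_mul_right hgpos hn'] at h
  obtain ⟨-, h3, -⟩ := lead_struct F hLN g m' n' hgpos hm'pos hn'pos hco (by rw [e0, hm'])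
    (by rw [e1, hn'])
  have h4 := wt_le_natDegree ![n', m'] hd2
  rw [h3] at h4
  have h5 : wt ![n', m'] d2 = n' * m + m' * n := by
    simp [wt, hd20, hd21]
  rw [h5, ← hm'] at h4
  have h6 : m' * n ≤ n' * n := by nlinarith
  have h7 : m' ≤ n' := Nat.le_of_mul_le_mul_right h6 hn
  have h8 : g * m' ≤ g * n' := Nat.mul_le_mul_left g h7
  omega

/-- Let `F, G` be complex polynomials in two variables such that the Newton polygon of `F` is the
trapezoid `T_{m,n}` with `m, n > 0` and the bracket `[F, G]` is constant. Let `q` be a nonzero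
polynomial in two variables such that each coordinate becomes integral over `ℂ[F, G]` after
multiplication by a power of `q(F, G)`. If some automorphism of infinite order of the plane multiplies
`q` by a unit, then `[F, G] = 0`. -/
theorem result (m n : ℕ) (hm : 0 < m) (hn : 0 < n) (F G : MvPolynomial (Fin 2) ℂ)
    (h1 : convexHull ℝ (insert ((0:ℝ), (0:ℝ))
        ((fun d : Fin 2 →₀ ℕ => ((d 0 : ℝ), (d 1 : ℝ))) '' (↑F.support : Set (Fin 2 →₀ ℕ))))
        = {p : ℝ × ℝ | 0 ≤ p.2 ∧ p.2 ≤ (n : ℝ) ∧ 0 ≤ p.1 ∧ p.1 ≤ (m : ℝ) + (n : ℝ) - p.2})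
    (h5 : ∃ c : ℂ, pderiv 0 F * pderiv 1 G - pderiv 1 F * pderiv 0 G = C c)
    (q : MvPolynomial (Fin 2) ℂ) (hq : q ≠ 0)
    (hint : ∀ i : Fin 2, ∃ N : ℕ,
      IsIntegral (Algebra.adjoin ℂ {F, G}) ((aeval ![F, G] q) ^ N * X i))
    (ψ : MvPolynomial (Fin 2) ℂ ≃ₐ[ℂ] MvPolynomial (Fin 2) ℂ) (hinf : ∀ N : ℕ, 0 < N → ψ ^ N ≠ 1)
    (hψ : Associated (ψ q) q) :
    pderiv 0 F * pderiv 1 G - pderiv 1 F * pderiv 0 G = 0 := by
  obtain ⟨c, hc⟩ := h5
  by_cases hc0 : c = 0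
  · rw [hc, hc0, map_zero]
  exfalso
  have hJ : IsUnit (Matrix.det (jac ![F, G])) := by
    rw [Matrix.det_fin_two]
    have h6 : (jac ![F, G]) 0 0 * (jac ![F, G]) 1 1 - (jac ![F, G]) 0 1 * (jac ![F, G]) 1 0 =
        pderiv 0 F * pderiv 1 G - pderiv 1 F * pderiv 0 G := by
      simp only [jac, Matrix.of_apply, Matrix.cons_val_zero, Matrix.cons_val_one]
    rw [h6, hc]
    exact (isUnit_iff_ne_zero.2 hc0).map C
  have hr : Set.range ![F, G] = {F, G} := by
    rw [Matrix.range_cons, Matrix.range_cons, Matrix.range_empty, Set.union_empty]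
    rfl
  obtain ⟨H, hH1, hH2⟩ := cprime_any ![F, G] hJ q hq (by rw [hr]; exact hint) ψ hinf hψ
  let θ : GA ℂ := AlgEquiv.ofAlgHom (aeval ![F, G]) (aeval H)
    (by
      apply MvPolynomial.algHom_ext
      intro i
      rw [AlgHom.comp_apply, aeval_X, AlgHom.id_apply]
      exact hH1 i)
    (by
      apply MvPolynomial.algHom_ext
      intro i
      rw [AlgHom.comp_apply, aeval_X, AlgHom.id_apply]
      exact hH2 i)
  have hθ : θ (X 0) = F := by
    change aeval ![F, G] (X 0) = F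
    rw [aeval_X]; rfl
  have h7 := LN_ga θ
  rw [hθ] at h7
  exact not_LN hm hn h1 h7

end Pool.Agent.Results.MP_2d59ee_ag.SymmetricCurveTrapezoid
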